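import Pool.Agent.SYR.ASM

/-!
# MP_045d6b_lc: small refutations of the onto functional pigeonhole principle have few symmetries

Pigeons `Tup a K` (the disjoint union of the powers `K ^ (a i)`), holes `Tup b K`.  Examples, with `k` elements in `K`:
all `a i = 0`, one `b j = 1`, the others `0` (`K'` of size `m - n + k`): `K` is a set of `k` of the `n` holes, any `m > n`;
all `b j = 0`, one `a i = 1`, the others `0` (`K'` of size `k - (m - n)`): `K` is a set of `k` of the `m` pigeons;
some `a i > 0` and some `b j > 0` (`K'` infinite): diagonal actions, `m` and `n` are sums of powers of `k`.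
A refutation with `s` gates has at most `s * k! / C(k, r)` symmetries in `Sym K`.  Paper proof and modules: `Pool/Agent/SYR/St.lean`.
-/

namespace Pool.Agent.Results.MP_045d6b_lc.SymmetricRefutations

open Pool.Agent.SYR

theorem result :
    ∀ (I J K N : Type) [Fintype K] [Fintype N] (a : I → ℕ) (b : J → ℕ) (C : Circ (Tup a K × Tup b K) N) (t r : ℕ),
      2 ≤ r → (∀ i, a i ≤ r) → (∀ j, b j ≤ r) → 8 * r * (r + 1) ≤ Fintype.card K → (2 * t + 3) * r ≤ Fintype.card K →
      (∃ K' : Type, (∃ j : Fin ((2 * t + 3) * r) → K', Function.Injective j) ∧ Nonempty (Tup a K' ≃ Tup b K')) →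
      Refutes C t (Php (Tup a K) (Tup b K)) →
      (Fintype.card K).choose r * Nat.card (Syms C) ≤ Fintype.card N * (Fintype.card K).factorial :=
  asm_fin

end Pool.Agent.Results.MP_045d6b_lc.SymmetricRefutations
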